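import Pool.Agent.P8H9.RD.Defs
import Pool.Agent.H921R2.TatePole.Base

/-! The family of all elliptic curves `y² = x³ + a x + b` over a number field and its random members. -/

set_option autoImplicit false

namespace Pool.Agent.P8H9.EK

open NumberField IsDedekindDomain MeasureTheory Pool.Agent.P8H9.RD

variable {K : Type} [Field K] [NumberField K]

/-- the number of affine points of the curve `y² = x³ + a x + b` over the residue field at `v` -/
noncomputable def affPts (v : HeightOneSpectrum (𝓞 K)) (a b : 𝓞 K) : ℕ :=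
  Nat.card {P : (𝓞 K ⧸ v.asIdeal) × (𝓞 K ⧸ v.asIdeal) //
    P.2 ^ 2 = P.1 ^ 3 + Ideal.Quotient.mk v.asIdeal a * P.1 + Ideal.Quotient.mk v.asIdeal b}

/-- `a_v = q + 1 - #E(k_v)`, `q = N v` the number of elements of the residue field `k_v`, for
`E : y² = x³ + a x + b` with its point at infinity -/
noncomputable def traceE (v : HeightOneSpectrum (𝓞 K)) (a b : 𝓞 K) : ℤ :=
  (Ideal.absNorm v.asIdeal : ℤ) + 1 - ((affPts v a b : ℤ) + 1)

open Classical in
/-- the Euler factor `(1 - a_v q^{-s} + q^{1-2s})⁻¹` at `v` of the `L`-series of `y² = x³ + a x + b`, if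
`v` does not divide `2 (4 a³ + 27 b²)`, so that this equation has good reduction at `v`; `1` otherwise -/
noncomputable def eulerE (v : HeightOneSpectrum (𝓞 K)) (a b : 𝓞 K) (s : ℂ) : ℂ :=
  if 2 * (4 * a ^ 3 + 27 * b ^ 2) ∈ v.asIdeal then 1
  else (1 - (traceE v a b : ℂ) * ((Ideal.absNorm v.asIdeal : ℕ) : ℂ) ^ (-s) +
    ((Ideal.absNorm v.asIdeal : ℕ) : ℂ) ^ (1 - 2 * s))⁻¹

/-- the `L`-series of `E : y² = x³ + a x + b`, the product over the primes not dividing
`2 (4 a³ + 27 b²)` -/
noncomputable def LE (a b : 𝓞 K) (s : ℂ) : ℂ := ∏' v : HeightOneSpectrum (𝓞 K), eulerE v a b s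

/-- the pair `(a, b) ∈ 𝓞_K × 𝓞_K` with coordinates `c` with respect to a basis `B` over `ℤ` -/
noncomputable def pt {k : ℕ} (B : Module.Basis (Fin k) ℤ (𝓞 K × 𝓞 K)) (c : Fin k → ℤ) : 𝓞 K × 𝓞 K :=
  ∑ i, c i • B i

/-- the random `L`-series: the Euler product whose factor at `v` is the Euler factor at `v` of the
`L`-series of `y² = x³ + a x + b` for `(a, b)` with coordinates reducing to `ω_p` modulo `p`, `p` the
rational prime below `v` -/
noncomputable def LEHat {k : ℕ} (B : Module.Basis (Fin k) ℤ (𝓞 K × 𝓞 K)) (ω : Om k) (s : ℂ) : ℂ :=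
  ∏' v : HeightOneSpectrum (𝓞 K),
    eulerE v (pt B fun i => ((ω (Pool.Agent.H921R2.TatePole.below v) i).val : ℤ)).1
      (pt B fun i => ((ω (Pool.Agent.H921R2.TatePole.below v) i).val : ℤ)).2 s

end Pool.Agent.P8H9.EK
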