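import Pool.Agent.H341R2.WeilSharp

/-! Point counts of the curves `y² = x³ + a x + b` over a finite field of odd characteristic. -/

set_option autoImplicit false

namespace Pool.Agent.P8H9.EK

open Polynomial Finset

variable {F : Type*} [Field F]

section
variable [Fintype F] [DecidableEq F]

/-- the character sum -/
noncomputable def Sx (a b : F) : ℤ := ∑ x : F, quadraticChar F (x ^ 3 + a * x + b)

/-- the cubic -/
noncomputable def cb (a b : F) : F[X] := X ^ 3 + C a * X + C b

omit [Fintype F] [DecidableEq F] in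
theorem cb_eval (a b x : F) : (cb a b).eval x = x ^ 3 + a * x + b := by
  unfold cb
  simp

omit [Fintype F] [DecidableEq F] in
theorem cb_natDegree (a b : F) : (cb a b).natDegree = 3 := by
  unfold cb
  compute_degree!

/-- **Hasse's bound** -/
theorem hasse (hF : ringChar F ≠ 2) (a b : F) : |(Sx a b : ℝ)| ≤ 2 * Real.sqrt (Fintype.card F) := by
  have hdeg := cb_natDegree a b
  have h1 := Pool.Agent.H341R2.Sharp.weil_sharp hF (cb a b) (by omega) (by
    intro e q hq
    have ha : e ≠ 0 := by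
      rintro rfl
      rw [C_0, zero_mul] at hq
      rw [hq] at hdeg
      simp at hdeg
    have hqd : 2 * q.natDegree = 3 := by
      rw [hq, natDegree_C_mul ha, natDegree_pow] at hdeg
      exact hdeg
    omega)
  rw [hdeg] at h1
  unfold Sx
  push_cast
  simp_rw [cb_eval] at h1
  refine h1.trans (le_of_eq ?_)
  norm_num

omit [Fintype F] [DecidableEq F] in
theorem two_ne (hF : ringChar F ≠ 2) : (2 : F) ≠ 0 := Ring.two_ne_zero hF

theorem card_aff (hF : ringChar F ≠ 2) (a b : F) :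
    (Nat.card {P : F × F // P.2 ^ 2 = P.1 ^ 3 + a * P.1 + b} : ℤ) = Fintype.card F + Sx a b := by
  have e : {P : F × F // P.2 ^ 2 = P.1 ^ 3 + a * P.1 + b} ≃
      (x : F) × {y : F // y ^ 2 = x ^ 3 + a * x + b} :=
    { toFun := fun p => ⟨p.1.1, ⟨p.1.2, p.2⟩⟩
      invFun := fun q => ⟨(q.1, q.2.1), q.2.2⟩
      left_inv := fun p => rfl
      right_inv := fun q => rfl }
  rw [Nat.card_congr e, Nat.card_eq_fintype_card, Fintype.card_sigma]
  push_cast
  have h1 : ∀ x : F, (Fintype.card {y : F // y ^ 2 = x ^ 3 + a * x + b} : ℤ) =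
      1 + quadraticChar F (x ^ 3 + a * x + b) := by
    intro x
    rw [add_comm (1 : ℤ), ← quadraticChar_card_sqrts hF, Set.toFinset_card]
    congr 1
  rw [sum_congr rfl fun x _ => h1 x, sum_add_distrib]
  unfold Sx
  simp

theorem sum_chi_shift (hF : ringChar F ≠ 2) (u : F) : ∑ b : F, quadraticChar F (u + b) = 0 := by
  rw [← quadraticChar_sum_zero hF]
  exact Fintype.sum_equiv (Equiv.addLeft u) _ _ fun x => rfl

theorem sum_Sx (hF : ringChar F ≠ 2) : ∑ a : F, ∑ b : F, Sx a b = 0 := by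
  refine sum_eq_zero fun a _ => ?_
  unfold Sx
  rw [sum_comm]
  exact sum_eq_zero fun x _ => sum_chi_shift hF _

theorem pair_sum (hF : ringChar F ≠ 2) {x y : F} (hxy : x ≠ y) :
    ∑ a : F, ∑ b : F, quadraticChar F (x ^ 3 + a * x + b) * quadraticChar F (y ^ 3 + a * y + b) = 0 := by
  have hd : x - y ≠ 0 := sub_ne_zero.2 hxy
  -- the substitution `(a, b) ↦ (u, w)`
  have h1 : ∑ p : F × F, quadraticChar F (x ^ 3 + p.1 * x + p.2) *
      quadraticChar F (y ^ 3 + p.1 * y + p.2) =
      ∑ p : F × F, quadraticChar F p.1 * quadraticChar F p.2 := by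
    refine Fintype.sum_bijective (fun p : F × F => (x ^ 3 + p.1 * x + p.2, y ^ 3 + p.1 * y + p.2))
      (Finite.injective_iff_bijective.1 ?_) _ _ fun p => rfl
    rintro ⟨a, b⟩ ⟨a', b'⟩ h
    simp only [Prod.mk.injEq] at h
    have e1 : (a - a') * (x - y) = 0 := by linear_combination h.1 - h.2
    have e2 : a = a' := sub_eq_zero.1 ((mul_eq_zero.1 e1).resolve_right hd)
    subst e2
    have e3 : b = b' := by linear_combination h.1
    rw [e3]
  rw [Fintype.sum_prod_type] at h1
  simp only at h1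
  rw [h1, Fintype.sum_prod_type]
  simp_rw [← mul_sum]
  rw [quadraticChar_sum_zero hF]
  simp

theorem sum_Sx_sq (hF : ringChar F ≠ 2) :
    ∑ a : F, ∑ b : F, Sx a b ^ 2 = (Fintype.card F : ℤ) ^ 2 * ((Fintype.card F : ℤ) - 1) := by
  have h0 : ∀ a b : F, Sx a b ^ 2 = ∑ x : F, ∑ y : F,
      quadraticChar F (x ^ 3 + a * x + b) * quadraticChar F (y ^ 3 + a * y + b) := by
    intro a b
    unfold Sx
    rw [_root_.sq, sum_mul_sum]
  have h1 : ∑ a : F, ∑ b : F, Sx a b ^ 2 = ∑ x : F, ∑ y : F, ∑ a : F, ∑ b : F,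
      quadraticChar F (x ^ 3 + a * x + b) * quadraticChar F (y ^ 3 + a * y + b) := by
    simp_rw [h0]
    have e1 : ∀ a : F, ∑ b : F, ∑ x : F, ∑ y : F,
        quadraticChar F (x ^ 3 + a * x + b) * quadraticChar F (y ^ 3 + a * y + b) =
        ∑ x : F, ∑ y : F, ∑ b : F,
        quadraticChar F (x ^ 3 + a * x + b) * quadraticChar F (y ^ 3 + a * y + b) := by
      intro a
      rw [sum_comm]
      refine sum_congr rfl fun x _ => ?_
      rw [sum_comm]
    simp_rw [e1]
    rw [sum_comm]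
    refine sum_congr rfl fun x _ => ?_
    rw [sum_comm]
  rw [h1]
  have h2 : ∀ x : F, ∑ y : F, ∑ a : F, ∑ b : F,
      quadraticChar F (x ^ 3 + a * x + b) * quadraticChar F (y ^ 3 + a * y + b) =
      (Fintype.card F : ℤ) * ((Fintype.card F : ℤ) - 1) := by
    intro x
    rw [sum_eq_single x (fun y _ hy => pair_sum hF (Ne.symm hy)) fun h => absurd (mem_univ _) h]
    have h3 : ∀ a : F, ∑ b : F, quadraticChar F (x ^ 3 + a * x + b) *
        quadraticChar F (x ^ 3 + a * x + b) = (Fintype.card F : ℤ) - 1 := by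
      intro a
      have h4 : ∑ b : F, quadraticChar F (x ^ 3 + a * x + b) *
        quadraticChar F (x ^ 3 + a * x + b) = ∑ u : F, quadraticChar F u * quadraticChar F u :=
        Fintype.sum_equiv (Equiv.addLeft (x ^ 3 + a * x)) _ _ fun b => rfl
      rw [h4]
      have h5 : ∀ u : F, quadraticChar F u * quadraticChar F u = 1 - if u = 0 then 1 else 0 := by
        intro u
        by_cases hu : u = 0
        · rw [if_pos hu, hu]
          simp
        · rw [if_neg hu, ← _root_.sq, quadraticChar_sq_one hu, sub_zero]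
      rw [sum_congr rfl fun u _ => h5 u, sum_sub_distrib, sum_const, card_univ, sum_ite_eq']
      simp
    rw [sum_congr rfl fun a _ => h3 a, sum_const, card_univ, nsmul_eq_mul]
  rw [sum_congr rfl fun x _ => h2 x, sum_const, card_univ, nsmul_eq_mul]
  ring

/-- the singular cubics -/
theorem card_sing (hF : ringChar F ≠ 2) :
    ((univ : Finset (F × F)).filter fun p => 4 * p.1 ^ 3 + 27 * p.2 ^ 2 = 0).card ≤
      3 * Fintype.card F := by
  have h2 := two_ne hF
  have h4 : (4 : F) ≠ 0 := by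
    have : (4 : F) = 2 * 2 := by norm_num
    rw [this]
    exact mul_ne_zero h2 h2
  rw [← univ_product_univ, ← card_map ⟨Prod.swap, Prod.swap_injective⟩]
  have h1 : (((univ : Finset F) ×ˢ (univ : Finset F)).filter
      fun p => 4 * p.1 ^ 3 + 27 * p.2 ^ 2 = 0).card ≤ ∑ b : F, 3 := by
    rw [card_filter, sum_product_right]
    refine sum_le_sum fun b _ => ?_
    rw [← card_filter]
    -- the roots of `4 X³ + 27 b²`
    set g : F[X] := C 4 * X ^ 3 + C (27 * b ^ 2) with hg
    have hgd : g.natDegree = 3 := by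
      rw [hg]
      compute_degree!
    have hg0 : g ≠ 0 := by
      rintro h
      rw [h] at hgd
      simp at hgd
    have hsub : (univ.filter fun a : F => 4 * a ^ 3 + 27 * b ^ 2 = 0) ⊆ g.roots.toFinset := by
      intro a ha
      rw [mem_filter] at ha
      rw [Multiset.mem_toFinset, mem_roots hg0, IsRoot.def, hg]
      simpa using ha.2
    exact (card_le_card hsub).trans ((Multiset.toFinset_card_le _).trans
      ((card_roots' g).trans hgd.le))
  rw [card_map]
  refine h1.trans_eq ?_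
  rw [sum_const, card_univ, smul_eq_mul, mul_comm]

/-- the trace of Frobenius of the smooth curves -/
noncomputable def tE (a b : F) : ℝ := if 4 * a ^ 3 + 27 * b ^ 2 = 0 then 0 else -(Sx a b : ℝ)

theorem tE_bd (hF : ringChar F ≠ 2) (a b : F) : |tE a b| ≤ 2 * Real.sqrt (Fintype.card F) := by
  unfold tE
  split_ifs
  · rw [abs_zero]
    positivity
  · rw [abs_neg]
    exact hasse hF a b

/-- the first two moments -/
theorem tE_moments (hF : ringChar F ≠ 2) :
    |∑ p : F × F, tE p.1 p.2| ≤ 6 * (Fintype.card F : ℝ) * Real.sqrt (Fintype.card F) ∧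
    (Fintype.card F : ℝ) ^ 2 * ((Fintype.card F : ℝ) - 13) ≤ ∑ p : F × F, tE p.1 p.2 ^ 2 := by
  set q : ℝ := (Fintype.card F : ℝ) with hq
  have hq0 : 0 ≤ q := by positivity
  set s : ℝ := Real.sqrt q with hs
  have hss : s ^ 2 = q := Real.sq_sqrt hq0
  have hs0 : 0 ≤ s := Real.sqrt_nonneg _
  set B := (univ : Finset (F × F)).filter fun p => 4 * p.1 ^ 3 + 27 * p.2 ^ 2 = 0 with hB
  have hBc : (B.card : ℝ) ≤ 3 * q := by
    have := card_sing (F := F) hF
    rw [hq]
    exact_mod_cast this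
  have e1 : ∑ p : F × F, (Sx p.1 p.2 : ℝ) = 0 := by
    have h1 := sum_Sx (F := F) hF
    rw [Fintype.sum_prod_type]
    exact_mod_cast h1
  have e2 : ∑ p : F × F, (Sx p.1 p.2 : ℝ) ^ 2 = q ^ 2 * (q - 1) := by
    have h1 := sum_Sx_sq (F := F) hF
    rw [Fintype.sum_prod_type]
    have h2 : ((∑ a : F, ∑ b : F, Sx a b ^ 2 : ℤ) : ℝ) =
      (((Fintype.card F : ℤ) ^ 2 * ((Fintype.card F : ℤ) - 1) : ℤ) : ℝ) := by rw [h1]
    push_cast at h2
    exact h2
  constructor
  · have h1 : ∑ p : F × F, tE p.1 p.2 = ∑ p ∈ B, (Sx p.1 p.2 : ℝ) := by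
      have h2 : ∀ p : F × F, tE p.1 p.2 =
          (if 4 * p.1 ^ 3 + 27 * p.2 ^ 2 = 0 then (Sx p.1 p.2 : ℝ) else 0) - (Sx p.1 p.2 : ℝ) := by
        intro p
        unfold tE
        split_ifs
        · ring
        · ring
      rw [sum_congr rfl fun p _ => h2 p, sum_sub_distrib, e1, sub_zero, hB, sum_filter]
    rw [h1]
    calc |∑ p ∈ B, (Sx p.1 p.2 : ℝ)| ≤ ∑ p ∈ B, |(Sx p.1 p.2 : ℝ)| := abs_sum_le_sum_abs _ _
      _ ≤ ∑ _p ∈ B, 2 * s := sum_le_sum fun p _ => hasse hF _ _
      _ = B.card * (2 * s) := by rw [sum_const, nsmul_eq_mul]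
      _ ≤ 3 * q * (2 * s) := mul_le_mul_of_nonneg_right hBc (by positivity)
      _ = 6 * q * s := by ring
  · have h1 : ∑ p : F × F, tE p.1 p.2 ^ 2 =
        ∑ p : F × F, (Sx p.1 p.2 : ℝ) ^ 2 - ∑ p ∈ B, (Sx p.1 p.2 : ℝ) ^ 2 := by
      rw [hB, sum_filter, ← sum_sub_distrib]
      refine sum_congr rfl fun p _ => ?_
      unfold tE
      split_ifs
      · ring
      · ring
    have h2 : ∑ p ∈ B, (Sx p.1 p.2 : ℝ) ^ 2 ≤ 3 * q * (4 * q) := by
      calc ∑ p ∈ B, (Sx p.1 p.2 : ℝ) ^ 2 ≤ ∑ _p ∈ B, 4 * q := by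
            refine sum_le_sum fun p _ => ?_
            have h3 := pow_le_pow_left₀ (abs_nonneg _) (hasse hF p.1 p.2) 2
            rw [sq_abs, mul_pow, ← hq, ← hs, hss] at h3
            linarith
        _ = B.card * (4 * q) := by rw [sum_const, nsmul_eq_mul]
        _ ≤ 3 * q * (4 * q) := mul_le_mul_of_nonneg_right hBc (by positivity)
    rw [h1, e2]
    nlinarith

end

end Pool.Agent.P8H9.EK
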