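import Pool.Agent.P8H9.EK.LocK

/-! The limit law of the `L`-series of the elliptic curves over a number field. -/

set_option autoImplicit false

namespace Pool.Agent.P8H9.EK

open NumberField IsDedekindDomain Finset Filter Topology MeasureTheory ProbabilityTheory
open Pool.Agent.P8H9.RD Pool.Agent.P8H9.RP
open Pool.Agent.H921R2.TatePole (nm two_le_nm below deg nm_eq R R_le sum_R_bdd W w w_nonneg w_summable
  bddmul_summable W_tendsto)

attribute [local instance] fV ftV dV AV.fp AV.nz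

variable {K : Type} [Field K] [NumberField K] {k : ℕ} (B : Module.Basis (Fin k) ℤ (𝓞 K × 𝓞 K))

open Classical in
/-- the primes of degree one above `p` -/
noncomputable def V1 (K : Type) [Field K] [NumberField K] (p : Nat.Primes) : Finset (Fib K p) :=
  univ.filter fun v : Fib K p => deg v.1 = 1

theorem card_V1 (p : Nat.Primes) : (V1 K p).card = R K p := by
  classical
  unfold V1 R
  congr

theorem Tk_one (p : Nat.Primes) (a : Fin k → ZMod (p : ℕ)) :
    Tk B p 1 a = -∑ v ∈ V1 K p, pv v.1 1 (lf B a) := by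
  classical
  unfold Tk V1
  rw [sum_filter]
  congr 1
  refine sum_congr rfl fun v _ => ?_
  by_cases h : deg v.1 = 1
  · rw [if_pos (by rw [h]), if_pos h, h]
    simp
  · rw [if_neg (fun hc => h (Nat.dvd_one.1 hc)), if_neg h]

theorem int_TK (p : Nat.Primes) (φ : ℝ → ℝ) :
    ∫ ω, φ (TK B p 1 ω) ∂(mu k) = av k p fun a => φ (Tk B p 1 a) :=
  int_coord p fun a => φ (Tk B p 1 a)

/-- the mean at one prime -/
noncomputable def Mv (p : Nat.Primes) (v : Fib K p) : ℝ := av k p fun a => pv v.1 1 (lf B a)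

theorem av_Tk (p : Nat.Primes) : av k p (Tk B p 1) = -∑ v ∈ V1 K p, Mv B p v := by
  have h1 : Tk B p 1 = fun a => (-1 : ℝ) * ∑ v ∈ V1 K p, pv v.1 1 (lf B a) := by
    funext a
    rw [Tk_one]
    ring
  rw [h1, av_mul, av_sum]
  unfold Mv
  ring

theorem Mv_bd (p : Nat.Primes) {v : Fib K p} (hv : v ∈ V1 K p) :
    |Mv B p v| ≤ 6 / Real.sqrt (p : ℕ) := by
  unfold V1 at hv
  rw [mem_filter] at hv
  exact mean_one B hv.2 p v.2

theorem av_Tk_sq (p : Nat.Primes) : av k p (fun a => Tk B p 1 a ^ 2) =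
    ∑ v ∈ V1 K p, (av k p (fun a => pv v.1 1 (lf B a) ^ 2) - Mv B p v ^ 2) +
      (∑ v ∈ V1 K p, Mv B p v) ^ 2 := by
  classical
  have h1 : (fun a => Tk B p 1 a ^ 2) = fun a : Fin k → ZMod (p : ℕ) =>
      ∑ v ∈ V1 K p, ∑ w ∈ V1 K p, pv v.1 1 (lf B a) * pv w.1 1 (lf B a) := by
    funext a
    rw [Tk_one, neg_sq, _root_.sq, sum_mul_sum]
  rw [h1, av_sum]
  have h2 : ∀ v ∈ V1 K p, av k p (fun a : Fin k → ZMod (p : ℕ) =>
      ∑ w ∈ V1 K p, pv v.1 1 (lf B a) * pv w.1 1 (lf B a)) =
      (av k p (fun a => pv v.1 1 (lf B a) ^ 2) - Mv B p v ^ 2) +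
        ∑ w ∈ V1 K p, Mv B p v * Mv B p w := by
    intro v hv
    rw [av_sum, ← add_sum_erase _ _ hv, ← add_sum_erase _ (fun w => Mv B p v * Mv B p w) hv]
    have h3 : ∀ w ∈ (V1 K p).erase v, av k p (fun a : Fin k → ZMod (p : ℕ) =>
        pv v.1 1 (lf B a) * pv w.1 1 (lf B a)) = Mv B p v * Mv B p w := by
      intro w hw
      rw [mem_erase] at hw
      have hne : v.1 ≠ w.1 := fun hc => hw.1 (Subtype.ext hc.symm)
      by_cases h2 : (p : ℕ) = 2
      · have e1 : (2 : 𝓞 K) ∈ v.1.asIdeal := by rw [two_iff, v.2]; exact h2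
        unfold Mv
        simp_rw [pv_two e1, zero_mul]
        rw [av_const, zero_mul]
      · have e1 : (2 : 𝓞 K) ∉ v.1.asIdeal := by rw [two_iff, v.2]; exact h2
        have e2 : (2 : 𝓞 K) ∉ w.1.asIdeal := by rw [two_iff, w.2]; exact h2
        unfold Mv
        simp_rw [pv_one e1, pv_one e2]
        exact av_two B hne p v.2 w.2 (fun x => tE x.1 x.2) (fun x => tE x.1 x.2)
    rw [sum_congr rfl h3]
    have h4 : (fun a : Fin k → ZMod (p : ℕ) => pv v.1 1 (lf B a) * pv v.1 1 (lf B a)) =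
        fun a => pv v.1 1 (lf B a) ^ 2 := by
      funext a
      rw [_root_.sq]
    rw [h4]
    ring
  rw [sum_congr rfl h2, sum_add_distrib]
  congr 1
  simp_rw [← mul_sum]
  rw [← sum_mul, _root_.sq]

theorem R_le' (p : Nat.Primes) : (R K p : ℝ) ≤ (Module.finrank ℚ K : ℝ) := by
  exact_mod_cast R_le (K := K) p

theorem div_K : ¬ Summable fun p : {p : Nat.Primes | R K p ≠ 0} =>
    1 / (((p : Nat.Primes) : ℕ) : ℝ) := by
  intro hs
  classical
  set P : Set Nat.Primes := {p : Nat.Primes | R K p ≠ 0} with hP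
  set f : Nat.Primes → ℝ := P.indicator fun p => 1 / ((p : ℕ) : ℝ) with hf
  have hf1 : Summable f := summable_subtype_iff_indicator.1 hs
  have hf0 : ∀ p, 0 ≤ f p := fun p => Set.indicator_nonneg (fun q _ => by positivity) p
  obtain ⟨C, hC⟩ := sum_R_bdd (K := K)
  set N : ℝ := (Module.finrank ℚ K : ℝ) with hN
  have hb : ∀ᶠ x : ℝ in 𝓝[>] 1, W x ≤ N * (∑' p, f p) + C := by
    filter_upwards [hC, self_mem_nhdsWithin] with x h1 hx
    have hx1 : (1 : ℝ) < x := hx
    have s1 : Summable fun p => (R K p : ℝ) * w x p := bddmul_summable hx1 (C := N) fun p => by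
      rw [abs_of_nonneg (by positivity)]
      exact R_le' p
    have s2 : Summable (w x) := w_summable hx1
    have e : ∑' p : Nat.Primes, ((R K p : ℝ) - 1) * w x p = ∑' p, (R K p : ℝ) * w x p - W x := by
      have : W x = ∑' p, w x p := rfl
      rw [this, ← s1.tsum_sub s2]
      exact tsum_congr fun p => by ring
    have h2 : ∑' p, (R K p : ℝ) * w x p ≤ N * ∑' p, f p := by
      rw [← tsum_mul_left]
      refine s1.tsum_le_tsum (fun p => ?_) (hf1.mul_left N)
      by_cases hp : R K p = 0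
      · rw [hp]
        push_cast
        rw [zero_mul]
        exact mul_nonneg (by positivity) (hf0 p)
      · have hp' : p ∈ P := hp
        rw [hf, Set.indicator_of_mem hp']
        refine mul_le_mul (R_le' p) ?_ (w_nonneg x p) (by positivity)
        unfold w
        have hp1 : (1 : ℝ) ≤ (p : ℕ) := by exact_mod_cast p.2.one_lt.le
        rw [one_div, ← Real.rpow_neg_one]
        exact Real.rpow_le_rpow_of_exponent_le hp1 (by linarith)
    rw [e] at h1
    have h3 := (abs_le.1 h1).1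
    linarith
  have ht := W_tendsto.eventually_gt_atTop (N * (∑' p, f p) + C)
  obtain ⟨x, h1, h2⟩ := (hb.and ht).exists
  linarith

/-- **the local data** -/
theorem locK : ∃ (b v : ℝ) (S : Finset Nat.Primes),
    LocP (mu k) (TK B) b v S {p : Nat.Primes | R K p ≠ 0} := by
  classical
  set N : ℝ := (Module.finrank ℚ K : ℝ) with hN
  have hN0 : 0 ≤ N := by positivity
  refine ⟨8 * N + 1, 1 / 2, PN 100, ?_⟩
  constructor
  · intro p j
    exact (Measurable.of_discrete (f := Tk B p j)).comp (measurable_pi_apply p)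
  · intro j
    exact iIndepFun_infinitePi (X := fun p => Tk B p j) fun p => Measurable.of_discrete
  · positivity
  · intro p j ω
    refine (Tk_bd B p (j + 1) (ω p)).trans ?_
    refine mul_le_mul_of_nonneg_right ?_ (by positivity)
    rw [← hN]
    linarith
  · intro p
    have h1 : ∫ ω, TK B p 1 ω ∂(mu k) = av k p (Tk B p 1) := int_TK B p id
    rw [h1, av_Tk, abs_neg]
    have hp1 : 1 ≤ Real.sqrt (p : ℕ) := sqrt_one_le p
    have h2 : ∀ v ∈ V1 K p, |Mv B p v| ≤ 6 := fun v hv => (Mv_bd B p hv).trans (by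
      rw [div_le_iff₀ (by linarith)]
      linarith)
    have h3 : ((V1 K p).card : ℝ) ≤ N := by
      rw [card_V1]
      exact R_le' p
    calc |∑ v ∈ V1 K p, Mv B p v| ≤ ∑ v ∈ V1 K p, |Mv B p v| := abs_sum_le_sum_abs _ _
      _ ≤ ∑ _v ∈ V1 K p, 6 := sum_le_sum h2
      _ = (V1 K p).card * 6 := by rw [sum_const, nsmul_eq_mul]
      _ ≤ 8 * N + 1 := by linarith
  · norm_num
  · intro p hp hpP
    have hpN : 100 < (p : ℕ) := by
      rw [mem_PN] at hp
      omega
    have hp0 : (100 : ℝ) < (p : ℕ) := by exact_mod_cast hpN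
    have hR : R K p ≠ 0 := hpP
    have hm : ∫ ω, TK B p 1 ω ∂(mu k) = av k p (Tk B p 1) := int_TK B p id
    rw [hm]
    have h1 : ∫ ω, (TK B p 1 ω - av k p (Tk B p 1)) ^ 2 ∂(mu k) =
        av k p fun a => (Tk B p 1 a - av k p (Tk B p 1)) ^ 2 :=
      int_TK B p fun x => (x - av k p (Tk B p 1)) ^ 2
    rw [h1]
    set m := av k p (Tk B p 1) with hm'
    have h2 : av k p (fun a => (Tk B p 1 a - m) ^ 2) =
        av k p (fun a => Tk B p 1 a ^ 2) - m ^ 2 := by
      have e : (fun a => (Tk B p 1 a - m) ^ 2) = fun a : Fin k → ZMod (p : ℕ) =>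
          Tk B p 1 a ^ 2 + ((-2 * m) * Tk B p 1 a + m ^ 2) := by
        funext a
        ring
      rw [e, av_add, av_add, av_mul, av_const, ← hm']
      ring
    rw [h2, av_Tk_sq]
    have h3 : m ^ 2 = (∑ v ∈ V1 K p, Mv B p v) ^ 2 := by
      rw [hm', av_Tk, neg_sq]
    rw [h3, add_sub_cancel_right]
    have h4 : ∀ v ∈ V1 K p, 1 / 2 * ((p : ℕ) : ℝ) ≤
        av k p (fun a => pv v.1 1 (lf B a) ^ 2) - Mv B p v ^ 2 := by
      intro v hv
      have h5 := Mv_bd B p hv
      have hv' := hv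
      unfold V1 at hv'
      rw [mem_filter] at hv'
      have h6 := second_one B hv'.2 p v.2 (by omega)
      have h7 : Mv B p v ^ 2 ≤ 1 := by
        rw [← sq_abs]
        have h8 : |Mv B p v| ≤ 1 := by
          refine h5.trans ?_
          rw [div_le_one (by positivity)]
          rw [Real.le_sqrt (by norm_num) (by positivity)]
          linarith
        exact pow_le_one₀ (abs_nonneg _) h8
      linarith
    have h5 : 0 < (V1 K p).card := by
      rw [card_V1]
      exact Nat.pos_of_ne_zero hR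
    calc 1 / 2 * ((p : ℕ) : ℝ) ≤ (V1 K p).card * (1 / 2 * ((p : ℕ) : ℝ)) := by
          have : (1 : ℝ) ≤ (V1 K p).card := by exact_mod_cast h5
          exact le_mul_of_one_le_left (by positivity) this
      _ = ∑ _v ∈ V1 K p, 1 / 2 * ((p : ℕ) : ℝ) := by rw [sum_const, nsmul_eq_mul]
      _ ≤ _ := sum_le_sum h4
  · intro p _ hpP ω
    have hR : R K p = 0 := by
      by_contra hc
      exact hpP hc
    unfold TK
    rw [Tk_one, card_eq_zero.1 ((card_V1 (K := K) p).trans hR), sum_empty, neg_zero]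
  · exact div_K

/-- joint continuity -/
theorem jointK : Continuous fun x : Om k × {s : ℂ // 3 / 2 < s.re} => logL (co (TK B) x.1) x.2 := by
  have h1 : ContinuousOn (fun x : Om k × ℂ => ∑' p, Dr (co (TK B) x.1) 0 p x.2)
      {x : Om k × ℂ | 3 / 2 < x.2.re} := by
    intro x hx
    have hx' : 3 / 2 < x.2.re := hx
    obtain ⟨τ, h2, h3⟩ := exists_between hx'
    have hop : IsOpen {x : Om k × ℂ | τ < x.2.re} :=
      isOpen_lt continuous_const (Complex.continuous_re.comp continuous_snd)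
    have h4 : ContinuousOn (fun x : Om k × ℂ => ∑' p, Dr (co (TK B) x.1) 0 p x.2)
        {x : Om k × ℂ | τ < x.2.re} := by
      refine continuousOn_tsum (u := fun p => (2 * Module.finrank ℚ K : ℝ) /
        (1 - (2 : ℝ) ^ (1 / 2 - τ)) * yy p τ ^ (0 + 1)) (fun p => ?_) ?_ fun p y hy => ?_
      · -- one prime
        have h5 : ∀ a : Fin k → ZMod (p : ℕ), ContinuousOn (fun s : ℂ =>
            Dr (fun _ j => Tk B p j a) 0 p s) {s : ℂ | 1 / 2 < s.re} := by
          intro a
          have hb : Pool.Agent.P8H9.RD.Bdd (fun (q : Nat.Primes) j => if q = p then Tk B p j a else 0)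
              (2 * Module.finrank ℚ K : ℝ) := by
            refine ⟨by positivity, fun q j => ?_⟩
            dsimp only
            split_ifs with h
            · subst h
              exact Tk_bd B q (j + 1) a
            · rw [abs_zero]
              positivity
          have h6 := (Dr_diff hb 0 p).continuousOn
          refine h6.congr fun s _ => ?_
          unfold Dr tm
          simp
        have h7 : ContinuousOn (fun y : (Fin k → ZMod (p : ℕ)) × ℂ =>
            Dr (fun _ j => Tk B p j y.1) 0 p y.2)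
            {y : (Fin k → ZMod (p : ℕ)) × ℂ | 1 / 2 < y.2.re} := by
          intro y hy
          have hy' : 1 / 2 < y.2.re := hy
          apply ContinuousAt.continuousWithinAt
          have h8 : ContinuousAt (fun s : ℂ => Dr (fun _ j => Tk B p j y.1) 0 p s) y.2 :=
            (h5 y.1).continuousAt ((isOpen_HP (1 / 2)).mem_nhds hy')
          have h9 : ContinuousAt (fun z : (Fin k → ZMod (p : ℕ)) × ℂ =>
              Dr (fun _ j => Tk B p j y.1) 0 p z.2) y :=
            ContinuousAt.comp (f := Prod.snd) (x := y) h8 continuousAt_snd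
          refine h9.congr ?_
          have h10 : {z : (Fin k → ZMod (p : ℕ)) × ℂ | z.1 = y.1} ∈ 𝓝 y :=
            ((isOpen_discrete ({y.1} : Set (Fin k → ZMod (p : ℕ)))).preimage
              continuous_fst).mem_nhds rfl
          filter_upwards [h10] with z hz
          have hz' : z.1 = y.1 := hz
          rw [hz']
        have h11 : ContinuousOn (fun x : Om k × ℂ => Dr (fun _ j => Tk B p j (x.1 p)) 0 p x.2)
            {x : Om k × ℂ | τ < x.2.re} := by
          refine ContinuousOn.comp (g := fun y : (Fin k → ZMod (p : ℕ)) × ℂ =>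
            Dr (fun _ j => Tk B p j y.1) 0 p y.2) (f := fun x : Om k × ℂ => (x.1 p, x.2)) h7 ?_ ?_
          · exact (((continuous_apply p).comp continuous_fst).prodMk continuous_snd).continuousOn
          · intro x hx
            have : τ < x.2.re := hx
            change 1 / 2 < x.2.re
            linarith
        exact h11
      · exact (summable_yy (r := 0) (by push_cast; linarith)).mul_left _
      · have hy' : τ < y.2.re := hy
        exact norm_Dr (bdd_TK B y.1) 0 p (by linarith) hy'.le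
    exact ((h4 x h3).continuousAt (hop.mem_nhds h3)).continuousWithinAt
  have h2 : Continuous fun x : Om k × {s : ℂ // 3 / 2 < s.re} => (x.1, (x.2 : ℂ)) := by
    exact continuous_fst.prodMk (continuous_subtype_val.comp continuous_snd)
  have h3 := h1.comp_continuous h2 fun x => x.2.2
  exact h3.neg

theorem exists_LamK :
    ∃ Λ : Om k → C({s : ℂ // 3 / 2 < s.re}, ℂ), Continuous Λ ∧ ∀ ω s, Λ ω s = LEHat B ω s := by
  have h1 : Continuous fun x : Om k × {s : ℂ // 3 / 2 < s.re} => LEHat B x.1 x.2 := by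
    refine ((jointK B).cexp).congr fun x => ?_
    exact (LEHat_exp B x.1 x.2.2).symm
  have h3 : ∀ ω : Om k, Continuous fun s : {s : ℂ // 3 / 2 < s.re} => LEHat B ω s := by
    intro ω
    have h4 : Continuous fun s : {s : ℂ // 3 / 2 < s.re} => (ω, s) :=
      continuous_const.prodMk continuous_id
    have h5 := Continuous.comp
      (g := fun x : Om k × {s : ℂ // 3 / 2 < s.re} => LEHat B x.1 x.2) h1 h4
    simpa only [Function.comp_def] using! h5
  refine ⟨fun ω => ⟨fun s => LEHat B ω s, h3 ω⟩, ?_, fun _ _ => rfl⟩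
  exact ContinuousMap.continuous_of_continuous_uncurry _ h1

theorem LE_rd (c : Fin k → ℤ) (s : ℂ) : LE (pt B c).1 (pt B c).2 s = LEHat B (rd c) s := by
  unfold LE LEHat
  refine tprod_congr fun v => ?_
  have h := r2_rd B (v := v) rfl c
  unfold r2 at h
  rw [Prod.mk.injEq] at h
  exact (eulerE_congr (x := lf B fun i => (c i : ZMod ((below v : Nat.Primes) : ℕ)))
    (y := pt B c) h.1 h.2 s).symm

theorem lawK :
    ∃ (Λ : Om k → C({s : ℂ // 3 / 2 < s.re}, ℂ)) (L : (Fin k → ℤ) → C({s : ℂ // 3 / 2 < s.re}, ℂ)),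
      (∀ ω s, Λ ω s = LEHat B ω s) ∧ (∀ c s, L c s = LE (pt B c).1 (pt B c).2 s) ∧
      ∀ Φ : C({s : ℂ // 3 / 2 < s.re}, ℂ) → ℂ, Continuous Φ →
        Integrable (fun ω => Φ (Λ ω)) (mu k) ∧
        Tendsto (fun H : Fin k → ℕ => AV.mean H fun c => Φ (L c)) atTop
          (𝓝 (∫ ω, Φ (Λ ω) ∂(mu k))) := by
  obtain ⟨Λ, h1, h2⟩ := exists_LamK B
  refine ⟨Λ, fun c => Λ (rd c), h2, fun c s => ?_, fun Φ hΦ => ⟨cont_integrable (hΦ.comp h1), ?_⟩⟩
  · rw [h2, LE_rd]
  · exact equi (hΦ.comp h1)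

theorem continuesK :
    ∀ᵐ ω ∂(mu k), ∃ G : ℂ → ℂ, DifferentiableOn ℂ G {s : ℂ | 1 < s.re} ∧
      (∀ s : ℂ, 1 < s.re → G s ≠ 0) ∧ ∀ s : ℂ, 3 / 2 < s.re → G s = LEHat B ω s := by
  obtain ⟨b, v, S, h⟩ := locK B
  filter_upwards [h.cont] with ω hω
  obtain ⟨G, hG1, hG2⟩ := hω
  refine ⟨fun s => Complex.exp (G s), hG1.cexp, fun s _ => Complex.exp_ne_zero _, fun s hs => ?_⟩
  simp only
  rw [hG2 s hs, LEHat_exp B ω hs]

theorem boundaryK :
    ∀ᵐ ω ∂(mu k), ∀ (w : ℂ) (r : ℝ), w.re = 1 → 0 < r →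
      ¬ ∃ F : ℂ → ℂ, MeromorphicOn F ({s : ℂ | 1 < s.re} ∪ Metric.ball w r) ∧
        ∀ s : ℂ, 3 / 2 < s.re → F s = LEHat B ω s := by
  obtain ⟨b, v, S, h⟩ := locK B
  filter_upwards [h.nat_mero] with ω hω
  rintro w r hw hr ⟨F, hF1, hF2⟩
  refine hω w r hw hr ⟨F, hF1, fun s hs => ?_⟩
  rw [hF2 s hs, LEHat_exp B ω hs]

end Pool.Agent.P8H9.EK
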