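import Pool.Agent.P8H9.EK.Red
import Pool.Agent.H921R2.TatePole.Radical

/-! The reduction homomorphisms of the family and the averages of the traces of Frobenius. -/

set_option autoImplicit false

namespace Pool.Agent.P8H9.EK

open NumberField IsDedekindDomain Finset Filter Topology Pool.Agent.P8H9.RD
open Pool.Agent.H921R2.TatePole (nm two_le_nm below deg nm_eq)

attribute [local instance] fV ftV dV

variable {K : Type} [Field K] [NumberField K] {k : ℕ} (B : Module.Basis (Fin k) ℤ (𝓞 K × 𝓞 K))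

omit [NumberField K] in
theorem pt_add (c d : Fin k → ℤ) : pt B (c + d) = pt B c + pt B d := by
  unfold pt
  rw [← sum_add_distrib]
  exact sum_congr rfl fun i _ => by rw [Pi.add_apply, add_smul]

omit [NumberField K] in
theorem pt_sub (c d : Fin k → ℤ) : pt B (c - d) = pt B c - pt B d := by
  have h := pt_add B (c - d) d
  rw [sub_add_cancel] at h
  rw [h, add_sub_cancel_right]

omit [NumberField K] in
theorem pt_smul (m : ℤ) (c : Fin k → ℤ) : pt B (fun i => m * c i) = m • pt B c := by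
  unfold pt
  rw [smul_sum]
  exact sum_congr rfl fun i _ => by rw [mul_smul]

omit [NumberField K] in
theorem pt_surj (x : 𝓞 K × 𝓞 K) : ∃ c : Fin k → ℤ, pt B c = x :=
  ⟨fun i => B.repr x i, B.sum_repr x⟩

/-- reduction of both coordinates -/
noncomputable def r2 (v : HeightOneSpectrum (𝓞 K)) (x : 𝓞 K × 𝓞 K) : kv v × kv v :=
  (rv v x.1, rv v x.2)

theorem r2_congr {v : HeightOneSpectrum (𝓞 K)} {c d : Fin k → ℤ}
    (h : ∀ i, ((below v : ℕ) : ℤ) ∣ c i - d i) : r2 v (pt B c) = r2 v (pt B d) := by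
  choose e he using h
  have h1 : pt B c - pt B d = ((below v : ℕ) : ℤ) • pt B e := by
    rw [← pt_sub, ← pt_smul]
    congr 1
    funext i
    exact he i
  have hz : ∀ z : 𝓞 K, rv v (((below v : ℕ) : ℤ) • z) = 0 := by
    intro z
    rw [rv_zero_iff, zsmul_eq_mul]
    push_cast
    exact v.asIdeal.mul_mem_right _ (nm_eq v).2.2
  unfold r2
  have e1 : rv v (pt B c).1 - rv v (pt B d).1 = 0 := by
    rw [← map_sub, ← Prod.fst_sub, h1, Prod.smul_fst]
    exact hz _
  have e2 : rv v (pt B c).2 - rv v (pt B d).2 = 0 := by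
    rw [← map_sub, ← Prod.snd_sub, h1, Prod.smul_snd]
    exact hz _
  rw [sub_eq_zero.1 e1, sub_eq_zero.1 e2]

/-- the member with given reductions of the coordinates -/
noncomputable def lf {p : ℕ} (a : Fin k → ZMod p) : 𝓞 K × 𝓞 K := pt B fun i => ((a i).val : ℤ)

theorem dvd_val {p : ℕ} [NeZero p] {z : ℤ} {a : ZMod p} (h : (z : ZMod p) = a) :
    (p : ℤ) ∣ (a.val : ℤ) - z := by
  rw [← ZMod.intCast_zmod_eq_zero_iff_dvd]
  push_cast
  rw [ZMod.natCast_zmod_val, h, sub_self]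

/-- the reduction homomorphism -/
noncomputable def ph (v : HeightOneSpectrum (𝓞 K)) (p : Nat.Primes) (hv : below v = p) :
    (Fin k → ZMod (p : ℕ)) →+ kv v × kv v :=
  haveI : NeZero (p : ℕ) := ⟨p.2.ne_zero⟩
  AddMonoidHom.mk' (fun a => r2 v (lf B a)) (by
    intro a a'
    have h1 : r2 v (lf B (a + a')) = r2 v (pt B ((fun i => ((a i).val : ℤ)) +
        fun i => ((a' i).val : ℤ))) := by
      refine r2_congr B fun i => ?_
      rw [hv]
      refine dvd_val ?_
      rw [Pi.add_apply]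
      push_cast
      rw [ZMod.natCast_zmod_val, ZMod.natCast_zmod_val]
      rfl
    rw [h1, pt_add]
    unfold r2 lf
    rw [Prod.fst_add, Prod.snd_add, map_add, map_add]
    rfl)

theorem ph_apply (v : HeightOneSpectrum (𝓞 K)) (p : Nat.Primes) (hv : below v = p)
    (a : Fin k → ZMod (p : ℕ)) : ph B v p hv a = r2 v (lf B a) := rfl

theorem r2_rd {v : HeightOneSpectrum (𝓞 K)} {p : Nat.Primes} (hv : below v = p) (c : Fin k → ℤ) :
    r2 v (lf B fun i => (c i : ZMod (p : ℕ))) = r2 v (pt B c) := by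
  have : NeZero (p : ℕ) := ⟨p.2.ne_zero⟩
  refine r2_congr B fun i => ?_
  rw [hv]
  exact dvd_val rfl

theorem ph_surj (v : HeightOneSpectrum (𝓞 K)) (p : Nat.Primes) (hv : below v = p) :
    Function.Surjective (ph B v p hv) := by
  rintro ⟨x, y⟩
  obtain ⟨X, hX⟩ := Ideal.Quotient.mk_surjective x
  obtain ⟨Y, hY⟩ := Ideal.Quotient.mk_surjective y
  obtain ⟨c, hc⟩ := pt_surj B (X, Y)
  refine ⟨fun i => (c i : ZMod (p : ℕ)), ?_⟩
  rw [ph_apply, r2_rd B hv, hc]
  exact Prod.ext hX hY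

theorem crt {v w : HeightOneSpectrum (𝓞 K)} (h : v ≠ w) (x y : 𝓞 K) :
    ∃ z : 𝓞 K, rv v z = rv v x ∧ rv w z = rv w y := by
  have hne : v.asIdeal ≠ w.asIdeal := fun hc => h (HeightOneSpectrum.ext hc)
  have h1 : v.asIdeal ⊔ w.asIdeal = ⊤ :=
    (v.isPrime.isMaximal v.ne_bot).coprime_of_ne (w.isPrime.isMaximal w.ne_bot) hne
  obtain ⟨e, he, f, hf, hef⟩ := Submodule.mem_sup.1 ((Ideal.eq_top_iff_one _).1 h1)
  refine ⟨x * f + y * e, ?_, ?_⟩
  · rw [← sub_eq_zero, ← map_sub, rv_zero_iff]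
    have : x * f + y * e - x = (y - x) * e := by
      linear_combination x * hef
    rw [this]
    exact v.asIdeal.mul_mem_left _ he
  · rw [← sub_eq_zero, ← map_sub, rv_zero_iff]
    have : x * f + y * e - y = (x - y) * f := by
      linear_combination y * hef
    rw [this]
    exact w.asIdeal.mul_mem_left _ hf

theorem ph2_surj {v w : HeightOneSpectrum (𝓞 K)} (h : v ≠ w) (p : Nat.Primes) (hv : below v = p)
    (hw : below w = p) : Function.Surjective ((ph B v p hv).prod (ph B w p hw)) := by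
  rintro ⟨⟨x, y⟩, ⟨x', y'⟩⟩
  obtain ⟨X, hX⟩ := Ideal.Quotient.mk_surjective x
  obtain ⟨Y, hY⟩ := Ideal.Quotient.mk_surjective y
  obtain ⟨X', hX'⟩ := Ideal.Quotient.mk_surjective x'
  obtain ⟨Y', hY'⟩ := Ideal.Quotient.mk_surjective y'
  obtain ⟨Z, hZ1, hZ2⟩ := crt h X X'
  obtain ⟨W, hW1, hW2⟩ := crt h Y Y'
  obtain ⟨c, hc⟩ := pt_surj B (Z, W)
  refine ⟨fun i => (c i : ZMod (p : ℕ)), ?_⟩
  rw [AddMonoidHom.prod_apply, ph_apply, ph_apply, r2_rd B hv, r2_rd B hw, hc]
  exact Prod.ext (Prod.ext (hZ1.trans hX) (hW1.trans hY)) (Prod.ext (hZ2.trans hX') (hW2.trans hY'))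

/-- the average over `(ℤ/p)^k` -/
noncomputable def av (k : ℕ) (p : Nat.Primes) (g : (Fin k → ZMod (p : ℕ)) → ℝ) : ℝ :=
  haveI : NeZero (p : ℕ) := ⟨p.2.ne_zero⟩
  (∑ a, g a) / ((p : ℕ) : ℝ) ^ k

theorem av_add (p : Nat.Primes) (g h : (Fin k → ZMod (p : ℕ)) → ℝ) :
    av k p (fun a => g a + h a) = av k p g + av k p h := by
  unfold av
  rw [sum_add_distrib, add_div]

theorem av_sum (p : Nat.Primes) {ι : Type*} (s : Finset ι) (g : ι → (Fin k → ZMod (p : ℕ)) → ℝ) :
    av k p (fun a => ∑ i ∈ s, g i a) = ∑ i ∈ s, av k p (g i) := by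
  unfold av
  rw [sum_comm, sum_div]

theorem av_mul (p : Nat.Primes) (z : ℝ) (g : (Fin k → ZMod (p : ℕ)) → ℝ) :
    av k p (fun a => z * g a) = z * av k p g := by
  unfold av
  rw [← mul_sum, mul_div_assoc]

theorem card_fun' (k : ℕ) (p : Nat.Primes) [NeZero (p : ℕ)] :
    (Fintype.card (Fin k → ZMod (p : ℕ)) : ℝ) = ((p : ℕ) : ℝ) ^ k := by
  rw [Fintype.card_fun, Fintype.card_fin, ZMod.card]
  push_cast
  rfl

theorem av_const (p : Nat.Primes) (z : ℝ) : av k p (fun _ => z) = z := by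
  have : NeZero (p : ℕ) := ⟨p.2.ne_zero⟩
  unfold av
  have h0 : ((p : ℕ) : ℝ) ^ k ≠ 0 := pow_ne_zero _ (by exact_mod_cast p.2.ne_zero)
  rw [sum_const, card_univ, nsmul_eq_mul, card_fun', mul_comm, mul_div_assoc, div_self h0, mul_one]

/-- averages of functions of the reduction at `v` -/
theorem av_one (v : HeightOneSpectrum (𝓞 K)) (p : Nat.Primes) (hv : below v = p)
    (f : kv v × kv v → ℝ) :
    av k p (fun a => f (r2 v (lf B a))) = (∑ x, f x) / (nm v : ℝ) ^ 2 := by
  have : NeZero (p : ℕ) := ⟨p.2.ne_zero⟩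
  have h1 := avg_surj (ph B v p hv) (ph_surj B v p hv) f
  simp only [ph_apply] at h1
  rw [card_fun', Fintype.card_prod, card_kv] at h1
  unfold av
  rw [h1]
  push_cast
  rw [_root_.sq]

/-- averages of functions of the reductions at `v` and `w` -/
theorem av_two {v w : HeightOneSpectrum (𝓞 K)} (h : v ≠ w) (p : Nat.Primes) (hv : below v = p)
    (hw : below w = p) (f : kv v × kv v → ℝ) (g : kv w × kv w → ℝ) :
    av k p (fun a => f (r2 v (lf B a)) * g (r2 w (lf B a))) =
      av k p (fun a => f (r2 v (lf B a))) * av k p (fun a => g (r2 w (lf B a))) := by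
  have : NeZero (p : ℕ) := ⟨p.2.ne_zero⟩
  have h1 := avg_surj ((ph B v p hv).prod (ph B w p hw)) (ph2_surj B h p hv hw)
    (fun x => f x.1 * g x.2)
  simp only [AddMonoidHom.prod_apply, ph_apply] at h1
  rw [card_fun', Fintype.card_prod, Fintype.card_prod, Fintype.card_prod, card_kv, card_kv,
    Fintype.sum_prod_type] at h1
  simp only at h1
  simp_rw [← mul_sum] at h1
  rw [← sum_mul] at h1
  rw [av_one B v p hv, av_one B w p hw]
  unfold av
  rw [h1]
  push_cast
  rw [div_mul_div_comm, ← _root_.sq, ← _root_.sq]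

/-- the trace of Frobenius at a prime of degree one -/
theorem deg_one {v : HeightOneSpectrum (𝓞 K)} (h : deg v = 1) : nm v = (below v : ℕ) := by
  have := (nm_eq v).1
  rwa [h, pow_one] at this

theorem two_iff (v : HeightOneSpectrum (𝓞 K)) : (2 : 𝓞 K) ∈ v.asIdeal ↔ (below v : ℕ) = 2 := by
  have h := Pool.Agent.H921R2.TatePole.int_mem_iff v 2
  push_cast at h
  rw [h]
  constructor
  · intro h1
    have h2 : (below v : ℕ) ∣ 2 := by exact_mod_cast h1
    exact (Nat.prime_dvd_prime_iff_eq (below v).2 Nat.prime_two).1 h2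
  · intro h1
    rw [h1]
    norm_num

/-- the first moment at a prime of degree one -/
theorem mean_one {v : HeightOneSpectrum (𝓞 K)} (hd : deg v = 1) (p : Nat.Primes)
    (hv : below v = p) : |av k p (fun a => pv v 1 (lf B a))| ≤ 6 / Real.sqrt (p : ℕ) := by
  have hp0 : (0 : ℝ) < (p : ℕ) := by exact_mod_cast p.2.pos
  by_cases h2 : (2 : 𝓞 K) ∈ v.asIdeal
  · simp_rw [pv_two h2]
    rw [av_const, abs_zero]
    positivity
  · have h3 : av k p (fun a => pv v 1 (lf B a)) =
        (∑ x : kv v × kv v, tE x.1 x.2) / (nm v : ℝ) ^ 2 := by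
      rw [← av_one B v p hv (fun x : kv v × kv v => tE x.1 x.2)]
      congr 1
      funext a
      rw [pv_one h2]
      rfl
    rw [h3]
    have h4 := (tE_moments (F := kv v) (ringChar_ne h2)).1
    rw [card_kv, deg_one hd, hv] at h4
    rw [deg_one hd, hv, abs_div, abs_of_pos (by positivity : (0 : ℝ) < ((p : ℕ) : ℝ) ^ 2),
      div_le_div_iff₀ (by positivity) (by positivity)]
    have h5 : Real.sqrt (p : ℕ) * Real.sqrt (p : ℕ) = (p : ℕ) := Real.mul_self_sqrt hp0.le
    have h6 : 0 ≤ Real.sqrt (p : ℕ) := Real.sqrt_nonneg _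
    calc |∑ x : kv v × kv v, tE x.1 x.2| * Real.sqrt (p : ℕ)
        ≤ (6 * (p : ℕ) * Real.sqrt (p : ℕ)) * Real.sqrt (p : ℕ) :=
          mul_le_mul_of_nonneg_right h4 h6
      _ = 6 * ((p : ℕ) : ℝ) ^ 2 := by
          rw [mul_assoc, h5]
          ring

/-- the second moment at a prime of degree one -/
theorem second_one {v : HeightOneSpectrum (𝓞 K)} (hd : deg v = 1) (p : Nat.Primes)
    (hv : below v = p) (hp : (p : ℕ) ≠ 2) :
    (p : ℕ) - 13 ≤ av k p (fun a => pv v 1 (lf B a) ^ 2) := by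
  have hp0 : (0 : ℝ) < (p : ℕ) := by exact_mod_cast p.2.pos
  have h2 : (2 : 𝓞 K) ∉ v.asIdeal := by
    rw [two_iff, hv]
    exact hp
  have h3 : av k p (fun a => pv v 1 (lf B a) ^ 2) =
      (∑ x : kv v × kv v, tE x.1 x.2 ^ 2) / (nm v : ℝ) ^ 2 := by
    rw [← av_one B v p hv (fun x : kv v × kv v => tE x.1 x.2 ^ 2)]
    congr 1
    funext a
    rw [pv_one h2]
    rfl
  rw [h3]
  have h4 := (tE_moments (F := kv v) (ringChar_ne h2)).2
  rw [card_kv, deg_one hd, hv] at h4
  rw [deg_one hd, hv, le_div_iff₀ (by positivity), mul_comm]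
  exact h4

end Pool.Agent.P8H9.EK
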