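import Pool.Agent.P8H9.EK.Hom
import Pool.Agent.P8H9.RP.LocP
import Pool.Agent.P8H9.RD.Law
import Pool.Agent.H921R2.TatePole.BaseChange

/-! The local data of the random `L`-series over a number field. -/

set_option autoImplicit false

namespace Pool.Agent.P8H9.EK

open NumberField IsDedekindDomain Finset Filter Topology MeasureTheory ProbabilityTheory
open Pool.Agent.P8H9.RD Pool.Agent.P8H9.RP
open Pool.Agent.H921R2.TatePole (nm two_le_nm below deg nm_eq R R_le sum_R_bdd)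

attribute [local instance] fV ftV dV AV.fp AV.nz

variable {K : Type} [Field K] [NumberField K] {k : ℕ} (B : Module.Basis (Fin k) ℤ (𝓞 K × 𝓞 K))

/-- the primes above `p` -/
abbrev Fib (K : Type) [Field K] [NumberField K] (p : Nat.Primes) : Type :=
  {v : HeightOneSpectrum (𝓞 K) // below v = p}

theorem sum_deg_le (p : Nat.Primes) : ∑ v : Fib K p, deg v.1 ≤ Module.finrank ℚ K := by
  classical
  have hdvd : (∏ v : Fib K p, v.1.asIdeal) ∣ Ideal.span {(((p : ℕ) : 𝓞 K))} := by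
    refine Finset.prod_dvd_of_isRelPrime ?_ ?_
    · intro v _ u _ hvu
      rw [Function.onFun]
      have hne : v.1.asIdeal ≠ u.1.asIdeal := fun h => hvu (Subtype.ext (HeightOneSpectrum.ext h))
      have h1 : IsCoprime v.1.asIdeal u.1.asIdeal := by
        rw [Ideal.isCoprime_iff_sup_eq]
        exact (v.1.isPrime.isMaximal v.1.ne_bot).coprime_of_ne
          (u.1.isPrime.isMaximal u.1.ne_bot) hne
      exact h1.isRelPrime
    · intro v _
      rw [Ideal.dvd_iff_le, Ideal.span_singleton_le_iff_mem]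
      have := (nm_eq v.1).2.2
      rwa [v.2] at this
  have h2 : Ideal.absNorm (∏ v : Fib K p, v.1.asIdeal) ∣
      Ideal.absNorm (Ideal.span {(((p : ℕ) : 𝓞 K))}) := map_dvd Ideal.absNorm hdvd
  rw [Ideal.absNorm_span_natCast, map_prod, RingOfIntegers.rank] at h2
  have hp := p.prop
  have h3 := Nat.le_of_dvd (pow_pos hp.pos _) h2
  have h4 : (p : ℕ) ^ (∑ v : Fib K p, deg v.1) = ∏ v : Fib K p, Ideal.absNorm v.1.asIdeal := by
    rw [← Finset.prod_pow_eq_pow_sum]
    refine Finset.prod_congr rfl fun v _ => ?_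
    have := (nm_eq v.1).1
    rw [v.2] at this
    exact this.symm
  rw [← h4] at h3
  exact (Nat.pow_le_pow_iff_right hp.one_lt).mp h3

/-- the coefficients at `p` -/
noncomputable def Tk (p : Nat.Primes) (j : ℕ) (a : Fin k → ZMod (p : ℕ)) : ℝ :=
  -∑ v : Fib K p, if deg v.1 ∣ j then (deg v.1 : ℝ) * pv v.1 (j / deg v.1) (lf B a) else 0

theorem sqrt_nm {v : HeightOneSpectrum (𝓞 K)} {p : Nat.Primes} (hv : below v = p) :
    Real.sqrt (nm v) = Real.sqrt (p : ℕ) ^ deg v := by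
  have h1 := (nm_eq v).1
  rw [hv] at h1
  rw [h1]
  push_cast
  have h2 : Real.sqrt ((p : ℕ) : ℝ) ^ 2 = (p : ℕ) := Real.sq_sqrt (Nat.cast_nonneg _)
  rw [Real.sqrt_eq_iff_mul_self_eq (by positivity) (by positivity), ← _root_.sq, ← pow_mul,
    mul_comm (deg v) 2, pow_mul, h2]

theorem Tk_bd (p : Nat.Primes) (j : ℕ) (a : Fin k → ZMod (p : ℕ)) :
    |Tk B p j a| ≤ (2 * Module.finrank ℚ K : ℝ) * Real.sqrt (p : ℕ) ^ j := by
  unfold Tk
  rw [abs_neg]
  have h1 : ∀ v : Fib K p, |if deg v.1 ∣ j then (deg v.1 : ℝ) * pv v.1 (j / deg v.1) (lf B a)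
      else 0| ≤ (deg v.1 : ℝ) * (2 * Real.sqrt (p : ℕ) ^ j) := by
    intro v
    split_ifs with h
    · rw [abs_mul, abs_of_nonneg (Nat.cast_nonneg _)]
      refine mul_le_mul_of_nonneg_left ?_ (Nat.cast_nonneg _)
      refine (pv_bd v.1 _ _).trans ?_
      rw [sqrt_nm v.2, ← pow_mul, Nat.mul_div_cancel' h]
    · rw [abs_zero]
      positivity
  calc |∑ v : Fib K p, if deg v.1 ∣ j then (deg v.1 : ℝ) * pv v.1 (j / deg v.1) (lf B a) else 0|
      ≤ ∑ v : Fib K p, (deg v.1 : ℝ) * (2 * Real.sqrt (p : ℕ) ^ j) :=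
        (abs_sum_le_sum_abs _ _).trans (sum_le_sum fun v _ => h1 v)
    _ = (∑ v : Fib K p, deg v.1 : ℕ) * (2 * Real.sqrt (p : ℕ) ^ j) := by
        rw [← sum_mul]
        push_cast
        rfl
    _ ≤ (Module.finrank ℚ K : ℝ) * (2 * Real.sqrt (p : ℕ) ^ j) :=
        mul_le_mul_of_nonneg_right (by exact_mod_cast sum_deg_le p) (by positivity)
    _ = _ := by ring

/-- the coefficients of a random member -/
noncomputable def TK (p : Nat.Primes) (j : ℕ) (ω : Om k) : ℝ := Tk B p j (ω p)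

theorem bdd_TK (ω : Om k) : Bdd (co (TK B) ω) (2 * Module.finrank ℚ K : ℝ) :=
  ⟨by positivity, fun p j => Tk_bd B p (j + 1) (ω p)⟩

/-- the sum of the local logarithms -/
theorem fib_log (p : Nat.Primes) (a : Fin k → ZMod (p : ℕ)) {s : ℂ} (hs : 1 / 2 < s.re) :
    ∑ v : Fib K p, lv v.1 (lf B a) s = -∑' j : ℕ, tm (fun _ i => Tk B p i a) p j s := by
  have h1 : ∀ v : Fib K p, ∀ j : ℕ, (if deg v.1 ∣ j + 1 then
      ((pv v.1 ((j + 1) / deg v.1) (lf B a) : ℝ) : ℂ) / (((j + 1) / deg v.1 : ℕ) : ℂ) *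
        (((nm v.1 : ℕ) : ℂ) ^ (-s)) ^ ((j + 1) / deg v.1) else 0) =
      ((if deg v.1 ∣ j + 1 then (deg v.1 : ℝ) * pv v.1 ((j + 1) / deg v.1) (lf B a) else 0 : ℝ) : ℂ) /
        (j + 1 : ℂ) * px p s ^ (j + 1) := by
    intro v j
    split_ifs with h
    · obtain ⟨m, hm⟩ := h
      have hd : 0 < deg v.1 := (nm_eq v.1).2.1
      have hm0 : m ≠ 0 := by
        rintro rfl
        simp at hm
      have e1 : (j + 1) / deg v.1 = m := by rw [hm, Nat.mul_div_cancel_left _ hd]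
      rw [e1]
      have e2 : ((nm v.1 : ℕ) : ℂ) ^ (-s) = px p s ^ deg v.1 := by
        have h3 := (nm_eq v.1).1
        rw [v.2] at h3
        rw [h3]
        unfold px
        push_cast
        rw [← Complex.natCast_cpow_natCast_mul]
        rw [← Complex.cpow_nat_mul]
      rw [e2, ← pow_mul, ← hm]
      have e3 : (j + 1 : ℂ) = (deg v.1 : ℂ) * m := by exact_mod_cast hm
      rw [e3]
      have hd0 : (deg v.1 : ℂ) ≠ 0 := by exact_mod_cast hd.ne'
      have hm0' : (m : ℂ) ≠ 0 := by exact_mod_cast hm0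
      push_cast
      field_simp
    · simp
  have h2 : ∀ v : Fib K p, lv v.1 (lf B a) s = ∑' j : ℕ,
      ((if deg v.1 ∣ j + 1 then (deg v.1 : ℝ) * pv v.1 ((j + 1) / deg v.1) (lf B a) else 0 : ℝ) : ℂ) /
        (j + 1 : ℂ) * px p s ^ (j + 1) := by
    intro v
    rw [← tsum_congr (h1 v)]
    have h3 := sparse (nm_eq v.1).2.1 (fun m => ((pv v.1 m (lf B a) : ℝ) : ℂ) / (m : ℂ) *
        (((nm v.1 : ℕ) : ℂ) ^ (-s)) ^ m)
    rw [h3]
    unfold lv
    refine tsum_congr fun m => ?_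
    push_cast
    rfl
  have h4 : ∀ v : Fib K p, Summable fun j : ℕ =>
      ((if deg v.1 ∣ j + 1 then (deg v.1 : ℝ) * pv v.1 ((j + 1) / deg v.1) (lf B a) else 0 : ℝ) : ℂ) /
        (j + 1 : ℂ) * px p s ^ (j + 1) := by
    intro v
    refine (sparse_summable (nm_eq v.1).2.1 (fun m => ((pv v.1 m (lf B a) : ℝ) : ℂ) / (m : ℂ) *
        (((nm v.1 : ℕ) : ℂ) ^ (-s)) ^ m) ?_).congr fun j => ?_
    · refine (eulerE_exp v.1 (lf B a) hs).1.congr fun m => ?_
      push_cast
      rfl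
    · exact (h1 v j)
  simp_rw [h2]
  rw [← Summable.tsum_finsetSum fun v _ => h4 v, ← tsum_neg]
  refine tsum_congr fun j => ?_
  unfold tm Tk
  rw [← sum_mul, ← sum_div]
  push_cast
  ring

/-- summability over the primes -/
theorem summable_lv (x : HeightOneSpectrum (𝓞 K) → 𝓞 K × 𝓞 K) {s : ℂ} (hs : 3 / 2 < s.re) :
    Summable fun v => lv v (x v) s := by
  refine Summable.of_norm_bounded
    (((Pool.Agent.H921R2.TatePole.nm_summable (K := K) (x := s.re - 1 / 2) (by linarith)).mul_left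
      (2 / (1 - (2 : ℝ) ^ (1 / 2 - s.re))))) fun v => ?_
  have h := lv_bd v (x v) (s := s) (by linarith)
  have e : (1 / 2 - s.re : ℝ) = -(s.re - 1 / 2) := by ring
  rw [e] at h ⊢
  exact h

theorem LEHat_exp (ω : Om k) {s : ℂ} (hs : 3 / 2 < s.re) :
    LEHat B ω s = Complex.exp (logL (co (TK B) ω) s) := by
  have h1 := summable_lv (K := K) (fun v => lf B (ω (below v))) hs
  have h2 := h1.hasSum.cexp.tprod_eq
  have h3 : LEHat B ω s = Complex.exp (∑' v : HeightOneSpectrum (𝓞 K), lv v (lf B (ω (below v))) s) := by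
    rw [← h2]
    unfold LEHat
    refine tprod_congr fun v => ?_
    exact (eulerE_exp v (lf B (ω (below v))) (by linarith)).2
  rw [h3]
  congr 1
  have h4 := ((Equiv.sigmaFiberEquiv (below (K := K))).summable_iff.mpr h1)
  have h5 := h4.tsum_sigma
  have h6 : ∑' c : (y : Nat.Primes) × {v : HeightOneSpectrum (𝓞 K) // below v = y},
      ((fun v => lv v (lf B (ω (below v))) s) ∘ (Equiv.sigmaFiberEquiv (below (K := K)))) c =
      ∑' v, lv v (lf B (ω (below v))) s :=
    (Equiv.sigmaFiberEquiv (below (K := K))).tsum_eq fun v => lv v (lf B (ω (below v))) s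
  rw [← h6, h5]
  unfold logL
  rw [← tsum_neg]
  refine tsum_congr fun p => ?_
  rw [tsum_fintype]
  unfold Dr
  have h7 : ∀ v : Fib K p, ((fun v => lv v (lf B (ω (below v))) s) ∘
      (Equiv.sigmaFiberEquiv (below (K := K)))) ⟨p, v⟩ = lv v.1 (lf B (ω p)) s := by
    rintro ⟨v, rfl⟩
    rfl
  rw [sum_congr rfl fun v _ => h7 v, fib_log B p (ω p) (by linarith)]
  rfl

end Pool.Agent.P8H9.EK
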