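import Mathlib

/-! Power sums of the inverse roots of `1 - t x + q x²`. -/

set_option autoImplicit false

namespace Pool.Agent.P8H9.EK

open Finset Filter Topology

/-- the inverse root -/
noncomputable def al (t q : ℝ) : ℂ := ((t / 2 : ℝ) : ℂ) + ((Real.sqrt (4 * q - t ^ 2) / 2 : ℝ) : ℂ) * Complex.I

/-- the power sums -/
noncomputable def pw (t q : ℝ) (j : ℕ) : ℝ := 2 * (al t q ^ j).re

theorem al_re (t q : ℝ) : (al t q).re = t / 2 := by
  unfold al
  rw [Complex.add_re, Complex.ofReal_re, Complex.re_ofReal_mul, Complex.I_re, mul_zero, add_zero]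

theorem al_im (t q : ℝ) : (al t q).im = Real.sqrt (4 * q - t ^ 2) / 2 := by
  unfold al
  rw [Complex.add_im, Complex.ofReal_im, Complex.im_ofReal_mul, Complex.I_im, mul_one, zero_add]

theorem al_normSq {t q : ℝ} (h : t ^ 2 ≤ 4 * q) : Complex.normSq (al t q) = q := by
  rw [Complex.normSq_apply, al_re, al_im]
  have := Real.mul_self_sqrt (by linarith : 0 ≤ 4 * q - t ^ 2)
  nlinarith

theorem al_norm {t q : ℝ} (h : t ^ 2 ≤ 4 * q) : ‖al t q‖ = Real.sqrt q := by
  have h1 := al_normSq h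
  rw [Complex.normSq_eq_norm_sq] at h1
  conv_rhs => rw [← h1]
  rw [Real.sqrt_sq (norm_nonneg _)]

theorem pw_one (t q : ℝ) : pw t q 1 = t := by
  unfold pw
  rw [pow_one, al_re]
  ring

theorem pw_bd {t q : ℝ} (h : t ^ 2 ≤ 4 * q) (j : ℕ) : |pw t q j| ≤ 2 * Real.sqrt q ^ j := by
  unfold pw
  rw [abs_mul, abs_of_pos (by norm_num : (0 : ℝ) < 2)]
  refine mul_le_mul_of_nonneg_left ?_ (by norm_num)
  refine (Complex.abs_re_le_norm _).trans ?_
  rw [norm_pow, al_norm h]

theorem pw_eq (t q : ℝ) (j : ℕ) : ((pw t q j : ℝ) : ℂ) = al t q ^ j + (starRingEnd ℂ (al t q)) ^ j := by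
  unfold pw
  rw [← map_pow, Complex.add_conj]

theorem al_add (t q : ℝ) : al t q + starRingEnd ℂ (al t q) = t := by
  rw [Complex.add_conj, al_re]
  push_cast
  ring

theorem al_mul {t q : ℝ} (h : t ^ 2 ≤ 4 * q) : al t q * starRingEnd ℂ (al t q) = q := by
  rw [Complex.mul_conj, al_normSq h]

/-- the logarithm of the local factor -/
theorem log_factor {t q : ℝ} (h : t ^ 2 ≤ 4 * q) {x : ℂ} (hx : Real.sqrt q * ‖x‖ < 1) :
    Summable (fun m : ℕ => ((pw t q (m + 1) : ℝ) : ℂ) / (m + 1 : ℂ) * x ^ (m + 1)) ∧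
    Complex.exp (∑' m : ℕ, ((pw t q (m + 1) : ℝ) : ℂ) / (m + 1 : ℂ) * x ^ (m + 1)) =
      (1 - t * x + q * x ^ 2)⁻¹ := by
  have h1 : ‖al t q * x‖ < 1 := by
    rw [norm_mul, al_norm h]
    exact hx
  have h2 : ‖starRingEnd ℂ (al t q) * x‖ < 1 := by
    rw [norm_mul, RCLike.norm_conj, al_norm h]
    exact hx
  have s1 := Complex.hasSum_taylorSeries_neg_log' h1
  have s2 := Complex.hasSum_taylorSeries_neg_log' h2
  have s3 : HasSum (fun m : ℕ => ((pw t q (m + 1) : ℝ) : ℂ) / (m + 1 : ℂ) * x ^ (m + 1))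
      (-Complex.log (1 - al t q * x) + -Complex.log (1 - starRingEnd ℂ (al t q) * x)) := by
    refine (s1.add s2).congr_fun ?_ |> fun h => h
    intro m
    rw [pw_eq, mul_pow, mul_pow]
    ring
  refine ⟨s3.summable, ?_⟩
  have hne1 : 1 - al t q * x ≠ 0 := by
    intro h0
    rw [sub_eq_zero] at h0
    rw [← h0, norm_one] at h1
    exact lt_irrefl _ h1
  have hne2 : 1 - starRingEnd ℂ (al t q) * x ≠ 0 := by
    intro h0
    rw [sub_eq_zero] at h0
    rw [← h0, norm_one] at h2
    exact lt_irrefl _ h2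
  rw [s3.tsum_eq, Complex.exp_add, Complex.exp_neg, Complex.exp_neg, Complex.exp_log hne1,
    Complex.exp_log hne2, ← mul_inv]
  congr 1
  linear_combination (-x) * al_add t q + x ^ 2 * al_mul h

/-- sparse sums -/
theorem sparse {f : ℕ} (hf : 0 < f) (g : ℕ → ℂ) :
    ∑' j : ℕ, (if f ∣ j + 1 then g ((j + 1) / f) else 0) = ∑' m : ℕ, g (m + 1) := by
  have hinj : Function.Injective (fun m : ℕ => f * (m + 1) - 1) := by
    intro m m' h
    simp only at h
    have h1 : 1 ≤ f * (m + 1) := Nat.mul_pos hf (Nat.succ_pos m)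
    have h2 : 1 ≤ f * (m' + 1) := Nat.mul_pos hf (Nat.succ_pos m')
    have h3 : f * (m + 1) = f * (m' + 1) := by omega
    have := Nat.eq_of_mul_eq_mul_left hf h3
    omega
  rw [← hinj.tsum_eq]
  · refine tsum_congr fun m => ?_
    have h1 : 1 ≤ f * (m + 1) := Nat.mul_pos hf (Nat.succ_pos m)
    have h2 : f * (m + 1) - 1 + 1 = f * (m + 1) := by omega
    rw [h2, if_pos (Dvd.intro _ rfl), Nat.mul_div_cancel_left _ hf]
  · intro j hj
    rw [Function.mem_support] at hj
    have h1 : f ∣ j + 1 := by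
      by_contra hc
      exact hj (if_neg hc)
    obtain ⟨m, hm⟩ := h1
    have hm0 : m ≠ 0 := by
      rintro rfl
      simp at hm
    refine ⟨m - 1, ?_⟩
    have h2 : m - 1 + 1 = m := by omega
    change f * (m - 1 + 1) - 1 = j
    rw [h2, ← hm]
    omega

theorem sparse_summable {f : ℕ} (hf : 0 < f) (g : ℕ → ℂ) (hg : Summable fun m : ℕ => g (m + 1)) :
    Summable fun j : ℕ => (if f ∣ j + 1 then g ((j + 1) / f) else 0) := by
  have hinj : Function.Injective (fun m : ℕ => f * (m + 1) - 1) := by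
    intro m m' h
    simp only at h
    have h1 : 1 ≤ f * (m + 1) := Nat.mul_pos hf (Nat.succ_pos m)
    have h2 : 1 ≤ f * (m' + 1) := Nat.mul_pos hf (Nat.succ_pos m')
    have h3 : f * (m + 1) = f * (m' + 1) := by omega
    have := Nat.eq_of_mul_eq_mul_left hf h3
    omega
  rw [← hinj.summable_iff]
  · refine hg.congr fun m => ?_
    have h1 : 1 ≤ f * (m + 1) := Nat.mul_pos hf (Nat.succ_pos m)
    have h2 : f * (m + 1) - 1 + 1 = f * (m + 1) := by omega
    simp only [Function.comp_apply]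
    rw [h2, if_pos (Dvd.intro _ rfl), Nat.mul_div_cancel_left _ hf]
  · intro j hj
    rw [if_neg]
    rintro ⟨m, hm⟩
    apply hj
    have hm0 : m ≠ 0 := by
      rintro rfl
      simp at hm
    refine ⟨m - 1, ?_⟩
    have h2 : m - 1 + 1 = m := by omega
    simp only
    rw [h2, ← hm]
    omega

/-- averages over the fibres of a surjective homomorphism -/
theorem avg_surj {G H : Type*} [AddGroup G] [AddGroup H] [Fintype G] [Fintype H] (φ : G →+ H)
    (hφ : Function.Surjective φ) (f : H → ℝ) :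
    (∑ g, f (φ g)) / Fintype.card G = (∑ h, f h) / Fintype.card H := by
  classical
  have h1 : ∀ h : H, (univ.filter fun g => φ g = h).card = (univ.filter fun g => φ g = 0).card := by
    intro h
    exact AddMonoidHom.card_fiber_eq_of_mem_range φ (hφ h) (hφ 0)
  set r := (univ.filter fun g => φ g = 0).card with hr
  have h2 : Fintype.card G = Fintype.card H * r := by
    rw [← card_univ, card_eq_sum_card_fiberwise (f := φ) (t := (univ : Finset H))
      (fun _ _ => mem_univ _), sum_congr rfl fun h _ => h1 h, sum_const, card_univ, smul_eq_mul]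
  have h3 : ∑ g, f (φ g) = r * ∑ h, f h := by
    rw [← sum_fiberwise_of_maps_to (t := (univ : Finset H)) (g := φ) (fun _ _ => mem_univ _),
      mul_sum]
    refine sum_congr rfl fun h _ => ?_
    rw [sum_congr rfl (g := fun _ => f h) fun g hg => by rw [(mem_filter.1 hg).2], sum_const,
      h1 h, nsmul_eq_mul]
  have hG : 0 < Fintype.card G := Fintype.card_pos
  have hr0 : (r : ℝ) ≠ 0 := by
    intro h0
    have : r = 0 := by exact_mod_cast h0
    rw [this, mul_zero] at h2
    omega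
  have hH : (Fintype.card H : ℝ) ≠ 0 := by exact_mod_cast Fintype.card_ne_zero
  rw [h3, h2]
  push_cast
  field_simp

end Pool.Agent.P8H9.EK
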