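import Pool.Agent.P8H9.EK.Defs
import Pool.Agent.P8H9.EK.Ell
import Pool.Agent.P8H9.EK.Pw
import Pool.Agent.P8H9.RD.Dec

/-! Reductions of the members of the family and the local factors. -/

set_option autoImplicit false

namespace Pool.Agent.P8H9.EK

open NumberField IsDedekindDomain Finset Filter Topology Pool.Agent.P8H9.RD
open Pool.Agent.H921R2.TatePole (nm two_le_nm below deg nm_eq)

variable {K : Type} [Field K] [NumberField K]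

/-- the residue field at `v` -/
noncomputable abbrev kv (v : HeightOneSpectrum (𝓞 K)) : Type := 𝓞 K ⧸ v.asIdeal

@[instance_reducible] noncomputable def fV (v : HeightOneSpectrum (𝓞 K)) : Field (kv v) :=
  letI := v.isMaximal
  Ideal.Quotient.field v.asIdeal

@[instance_reducible] noncomputable def ftV (v : HeightOneSpectrum (𝓞 K)) : Fintype (kv v) :=
  letI : Finite (𝓞 K ⧸ v.asIdeal) := Ideal.finiteQuotientOfFreeOfNeBot v.asIdeal v.ne_bot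
  Fintype.ofFinite _

@[instance_reducible] noncomputable def dV (v : HeightOneSpectrum (𝓞 K)) : DecidableEq (kv v) := Classical.decEq _

attribute [local instance] fV ftV dV

/-- reduction -/
noncomputable abbrev rv (v : HeightOneSpectrum (𝓞 K)) : 𝓞 K →+* kv v := Ideal.Quotient.mk v.asIdeal

theorem card_kv (v : HeightOneSpectrum (𝓞 K)) : Fintype.card (kv v) = nm v := by
  rw [← Nat.card_eq_fintype_card]
  rfl

omit [NumberField K] in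
theorem rv_zero_iff (v : HeightOneSpectrum (𝓞 K)) (x : 𝓞 K) : rv v x = 0 ↔ x ∈ v.asIdeal :=
  Ideal.Quotient.eq_zero_iff_mem

omit [NumberField K] in
theorem ringChar_ne {v : HeightOneSpectrum (𝓞 K)} (h : (2 : 𝓞 K) ∉ v.asIdeal) :
    ringChar (kv v) ≠ 2 := by
  intro hc
  apply h
  rw [← rv_zero_iff, map_ofNat]
  have := ringChar.Nat.cast_ringChar (R := kv v)
  rw [hc] at this
  exact_mod_cast this

theorem trace_eq {v : HeightOneSpectrum (𝓞 K)} (h : (2 : 𝓞 K) ∉ v.asIdeal) (a b : 𝓞 K) :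
    traceE v a b = -Sx (rv v a) (rv v b) := by
  have h1 := card_aff (F := kv v) (ringChar_ne h) (rv v a) (rv v b)
  have h2 : (affPts v a b : ℤ) = Fintype.card (kv v) + Sx (rv v a) (rv v b) := h1
  unfold traceE
  rw [h2, card_kv]
  unfold nm
  ring

omit [NumberField K] in
theorem good_two {v : HeightOneSpectrum (𝓞 K)} {a b : 𝓞 K}
    (h : 2 * (4 * a ^ 3 + 27 * b ^ 2) ∉ v.asIdeal) : (2 : 𝓞 K) ∉ v.asIdeal := fun h2 =>
  h (v.asIdeal.mul_mem_right _ h2)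

omit [NumberField K] in
theorem good_iff {v : HeightOneSpectrum (𝓞 K)} (h : (2 : 𝓞 K) ∉ v.asIdeal) (a b : 𝓞 K) :
    2 * (4 * a ^ 3 + 27 * b ^ 2) ∈ v.asIdeal ↔ 4 * rv v a ^ 3 + 27 * rv v b ^ 2 = 0 := by
  rw [← rv_zero_iff]
  have h2 : rv v 2 ≠ 0 := fun hc => h ((rv_zero_iff v 2).1 hc)
  have h3 : rv v (4 * a ^ 3 + 27 * b ^ 2) = 4 * rv v a ^ 3 + 27 * rv v b ^ 2 := by
    rw [map_add, map_mul, map_mul, map_pow, map_pow]
    rfl
  rw [map_mul, mul_eq_zero, or_iff_right h2, h3]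

theorem hasse_v {v : HeightOneSpectrum (𝓞 K)} {a b : 𝓞 K}
    (h : 2 * (4 * a ^ 3 + 27 * b ^ 2) ∉ v.asIdeal) : ((traceE v a b : ℤ) : ℝ) ^ 2 ≤ 4 * (nm v : ℝ) := by
  rw [trace_eq (good_two h)]
  have h1 := hasse (F := kv v) (ringChar_ne (good_two h)) (rv v a) (rv v b)
  rw [card_kv] at h1
  have h2 := pow_le_pow_left₀ (abs_nonneg _) h1 2
  rw [sq_abs, mul_pow, Real.sq_sqrt (Nat.cast_nonneg _)] at h2
  push_cast
  rw [neg_sq]
  linarith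

open Classical in
/-- the power sums at `v` -/
noncomputable def pv (v : HeightOneSpectrum (𝓞 K)) (j : ℕ) (x : 𝓞 K × 𝓞 K) : ℝ :=
  if 2 * (4 * x.1 ^ 3 + 27 * x.2 ^ 2) ∈ v.asIdeal then 0 else pw (traceE v x.1 x.2 : ℤ) (nm v) j

theorem pv_bd (v : HeightOneSpectrum (𝓞 K)) (j : ℕ) (x : 𝓞 K × 𝓞 K) :
    |pv v j x| ≤ 2 * Real.sqrt (nm v) ^ j := by
  unfold pv
  split_ifs with h
  · rw [abs_zero]
    positivity
  · exact pw_bd (hasse_v h) j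

theorem pv_one {v : HeightOneSpectrum (𝓞 K)} (h : (2 : 𝓞 K) ∉ v.asIdeal) (x : 𝓞 K × 𝓞 K) :
    pv v 1 x = tE (rv v x.1) (rv v x.2) := by
  unfold pv tE
  by_cases h1 : 2 * (4 * x.1 ^ 3 + 27 * x.2 ^ 2) ∈ v.asIdeal
  · rw [if_pos h1, if_pos ((good_iff h _ _).1 h1)]
  · rw [if_neg h1, if_neg fun hc => h1 ((good_iff h _ _).2 hc), pw_one, trace_eq h]
    push_cast
    rfl

theorem pv_two {v : HeightOneSpectrum (𝓞 K)} (h : (2 : 𝓞 K) ∈ v.asIdeal) (j : ℕ)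
    (x : 𝓞 K × 𝓞 K) : pv v j x = 0 := by
  unfold pv
  rw [if_pos (v.asIdeal.mul_mem_right _ h)]

/-- dependence on the residues -/
theorem traceE_congr {v : HeightOneSpectrum (𝓞 K)} {x y : 𝓞 K × 𝓞 K} (h1 : rv v x.1 = rv v y.1)
    (h2 : rv v x.2 = rv v y.2) : traceE v x.1 x.2 = traceE v y.1 y.2 := by
  unfold traceE affPts
  have e1 : Ideal.Quotient.mk v.asIdeal x.1 = Ideal.Quotient.mk v.asIdeal y.1 := h1
  have e2 : Ideal.Quotient.mk v.asIdeal x.2 = Ideal.Quotient.mk v.asIdeal y.2 := h2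
  rw [e1, e2]

omit [NumberField K] in
theorem mem_congr {v : HeightOneSpectrum (𝓞 K)} {x y : 𝓞 K × 𝓞 K} (h1 : rv v x.1 = rv v y.1)
    (h2 : rv v x.2 = rv v y.2) : 2 * (4 * x.1 ^ 3 + 27 * x.2 ^ 2) ∈ v.asIdeal ↔
      2 * (4 * y.1 ^ 3 + 27 * y.2 ^ 2) ∈ v.asIdeal := by
  have h3 : rv v (2 * (4 * x.1 ^ 3 + 27 * x.2 ^ 2)) = rv v (2 * (4 * y.1 ^ 3 + 27 * y.2 ^ 2)) := by
    rw [map_mul, map_mul, map_add, map_add, map_mul, map_mul, map_mul, map_mul, map_pow, map_pow,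
      map_pow, map_pow, h1, h2]
  rw [← rv_zero_iff, ← rv_zero_iff, h3]

theorem eulerE_congr {v : HeightOneSpectrum (𝓞 K)} {x y : 𝓞 K × 𝓞 K} (h1 : rv v x.1 = rv v y.1)
    (h2 : rv v x.2 = rv v y.2) (s : ℂ) : eulerE v x.1 x.2 s = eulerE v y.1 y.2 s := by
  unfold eulerE
  rw [traceE_congr h1 h2]
  by_cases h : 2 * (4 * x.1 ^ 3 + 27 * x.2 ^ 2) ∈ v.asIdeal
  · rw [if_pos h, if_pos ((mem_congr h1 h2).1 h)]
  · rw [if_neg h, if_neg fun hc => h ((mem_congr h1 h2).2 hc)]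

/-- the logarithm of the Euler factor -/
noncomputable def lv (v : HeightOneSpectrum (𝓞 K)) (x : 𝓞 K × 𝓞 K) (s : ℂ) : ℂ :=
  ∑' m : ℕ, ((pv v (m + 1) x : ℝ) : ℂ) / (m + 1 : ℂ) * (((nm v : ℕ) : ℂ) ^ (-s)) ^ (m + 1)

theorem nm_pos (v : HeightOneSpectrum (𝓞 K)) : 0 < nm v := by
  have := two_le_nm v
  omega

theorem norm_nm (v : HeightOneSpectrum (𝓞 K)) (s : ℂ) :
    ‖((nm v : ℕ) : ℂ) ^ (-s)‖ = (nm v : ℝ) ^ (-s.re) := by
  rw [Complex.norm_natCast_cpow_of_pos (nm_pos v), Complex.neg_re]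

theorem small (v : HeightOneSpectrum (𝓞 K)) {s : ℂ} (hs : 1 / 2 < s.re) :
    Real.sqrt (nm v) * ‖((nm v : ℕ) : ℂ) ^ (-s)‖ = (nm v : ℝ) ^ (1 / 2 - s.re) ∧
    (nm v : ℝ) ^ (1 / 2 - s.re) ≤ (2 : ℝ) ^ (1 / 2 - s.re) ∧ (2 : ℝ) ^ (1 / 2 - s.re) < 1 := by
  have h0 : (0 : ℝ) < nm v := by exact_mod_cast nm_pos v
  refine ⟨?_, ?_, ?_⟩
  · rw [norm_nm, Real.sqrt_eq_rpow, ← Real.rpow_add h0, sub_eq_add_neg]
  · exact Real.rpow_le_rpow_of_nonpos (by norm_num) (by exact_mod_cast two_le_nm v) (by linarith)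
  · exact Real.rpow_lt_one_of_one_lt_of_neg (by norm_num) (by linarith)

theorem eulerE_exp (v : HeightOneSpectrum (𝓞 K)) (x : 𝓞 K × 𝓞 K) {s : ℂ} (hs : 1 / 2 < s.re) :
    Summable (fun m : ℕ => ((pv v (m + 1) x : ℝ) : ℂ) / (m + 1 : ℂ) *
      (((nm v : ℕ) : ℂ) ^ (-s)) ^ (m + 1)) ∧
    eulerE v x.1 x.2 s = Complex.exp (lv v x s) := by
  by_cases h : 2 * (4 * x.1 ^ 3 + 27 * x.2 ^ 2) ∈ v.asIdeal
  · have h0 : ∀ m : ℕ, ((pv v (m + 1) x : ℝ) : ℂ) / (m + 1 : ℂ) *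
        (((nm v : ℕ) : ℂ) ^ (-s)) ^ (m + 1) = 0 := by
      intro m
      unfold pv
      rw [if_pos h]
      simp
    refine ⟨?_, ?_⟩
    · simp_rw [h0]
      exact summable_zero
    · unfold eulerE lv
      rw [if_pos h]
      simp_rw [h0]
      simp
  · obtain ⟨h1, h2, h3⟩ := small v hs
    have h4 : Real.sqrt (nm v : ℝ) * ‖((nm v : ℕ) : ℂ) ^ (-s)‖ < 1 := by
      rw [h1]
      exact lt_of_le_of_lt h2 h3
    obtain ⟨h5, h6⟩ := log_factor (hasse_v h) h4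
    have e : ∀ m : ℕ, ((pv v (m + 1) x : ℝ) : ℂ) / (m + 1 : ℂ) *
        (((nm v : ℕ) : ℂ) ^ (-s)) ^ (m + 1) =
        ((pw (traceE v x.1 x.2 : ℤ) (nm v) (m + 1) : ℝ) : ℂ) / (m + 1 : ℂ) *
        (((nm v : ℕ) : ℂ) ^ (-s)) ^ (m + 1) := by
      intro m
      unfold pv
      rw [if_neg h]
    refine ⟨?_, ?_⟩
    · simp_rw [e]
      exact h5
    · unfold eulerE lv
      simp_rw [e]
      rw [if_neg h, h6]
      have hne : ((nm v : ℕ) : ℂ) ≠ 0 := by exact_mod_cast (nm_pos v).ne'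
      have h7 : ((nm v : ℕ) : ℂ) ^ (1 - 2 * s) =
          ((nm v : ℕ) : ℂ) * (((nm v : ℕ) : ℂ) ^ (-s)) ^ 2 := by
        rw [← Complex.cpow_nat_mul, sub_eq_add_neg, Complex.cpow_add _ _ hne, Complex.cpow_one]
        congr 2
        push_cast
        ring
      congr 1
      change 1 - (traceE v x.1 x.2 : ℂ) * ((nm v : ℕ) : ℂ) ^ (-s) + ((nm v : ℕ) : ℂ) ^ (1 - 2 * s) = _
      rw [h7]
      push_cast
      ring

theorem lv_bd (v : HeightOneSpectrum (𝓞 K)) (x : 𝓞 K × 𝓞 K) {s : ℂ} (hs : 1 / 2 < s.re) :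
    ‖lv v x s‖ ≤ 2 / (1 - (2 : ℝ) ^ (1 / 2 - s.re)) * (nm v : ℝ) ^ (1 / 2 - s.re) := by
  obtain ⟨h1, h2, h3⟩ := small v hs
  set y : ℝ := (nm v : ℝ) ^ (1 / 2 - s.re) with hy
  have hy0 : 0 ≤ y := by positivity
  obtain ⟨g1, g2⟩ := geo_le 0 hy0 h2 h3
  have hb : ∀ m : ℕ, ‖((pv v (m + 1) x : ℝ) : ℂ) / (m + 1 : ℂ) *
      (((nm v : ℕ) : ℂ) ^ (-s)) ^ (m + 1)‖ ≤ 2 * y ^ (m + 0 + 1) := by
    intro m
    have h4 : (1 : ℝ) ≤ ‖(m + 1 : ℂ)‖ := by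
      have : (m + 1 : ℂ) = ((m + 1 : ℕ) : ℂ) := by push_cast; rfl
      rw [this, Complex.norm_natCast]
      exact_mod_cast Nat.le_add_left 1 m
    rw [norm_mul, norm_div, Complex.norm_real, Real.norm_eq_abs, norm_pow, add_zero]
    calc |pv v (m + 1) x| / ‖(m + 1 : ℂ)‖ * ‖((nm v : ℕ) : ℂ) ^ (-s)‖ ^ (m + 1)
        ≤ (2 * Real.sqrt (nm v) ^ (m + 1)) * ‖((nm v : ℕ) : ℂ) ^ (-s)‖ ^ (m + 1) :=
          mul_le_mul_of_nonneg_right ((div_le_self (abs_nonneg _) h4).trans (pv_bd v _ x))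
            (by positivity)
      _ = 2 * y ^ (m + 1) := by rw [mul_assoc, ← mul_pow, h1]
  have h5 := tsum_of_norm_bounded (f := fun m : ℕ => ((pv v (m + 1) x : ℝ) : ℂ) / (m + 1 : ℂ) *
      (((nm v : ℕ) : ℂ) ^ (-s)) ^ (m + 1)) (g1.mul_left 2).hasSum hb
  unfold lv
  refine h5.trans ?_
  rw [tsum_mul_left]
  refine (mul_le_mul_of_nonneg_left g2 (by norm_num)).trans_eq ?_
  rw [zero_add, pow_one]
  ring

end Pool.Agent.P8H9.EK
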